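import Pool.Agent.Y759.DS.Ballot

/-!
# Ballot words and the filtration of `dm` by the number of letters `x₀`
-/

set_option autoImplicit false

namespace Pool.Agent.V11252.DMB

open Pool.Agent.H777R4.DM Pool.Agent.Y759.QS

/-- if the coefficients at the ballot words with fewer than `M` letters `x₀` vanish, then all words
have at least `M` letters `x₀` -/
theorem layer {ψ : A} (h : IsDM ψ) {N M : ℕ} (hN : LenHom ψ N)
    (hB : ∀ a : List ℕ, Bal 1 a → (wordX a).count 0 < M → co ψ (wordX a) = 0) :
    ∀ u, co ψ u ≠ 0 → M ≤ u.count 0 := by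
  classical
  intro u₀ hu₀
  have hex : ∃ m, ∃ u, co ψ u ≠ 0 ∧ u.count 0 = m := ⟨_, u₀, hu₀, rfl⟩
  obtain ⟨u, hu, hum⟩ := Nat.find_spec hex
  set m := Nat.find hex with hmd
  have hmin : ∀ w, co ψ w ≠ 0 → m ≤ w.count 0 := fun w hw => Nat.find_min' hex ⟨w, hw, rfl⟩
  by_contra hlt
  push Not at hlt
  have hmM : m < M := lt_of_le_of_lt (hmin u₀ hu₀) hlt
  have hsmall := taskSmall_proof taskTwoB Pool.Agent.H352.DSH.taskTwoC ψ h u hu
  have hlen := hN u hu
  have hcl := Pool.Agent.TH19.DS.count_len u
  apply hu
  have hS : ∀ w, Pool.Agent.TH19.DS.ins 1 w (co ψ) = 0 := by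
    intro w
    rw [Pool.Agent.TH19.DS.ins_eq]
    exact Pool.Agent.H352.DSH.taskTwoC ψ h.mem 1 h.c1 w
  have hT : ∀ w, Pool.Agent.TH19.DS.ins 0 w (co ψ) = 0 := by
    intro w
    rw [Pool.Agent.TH19.DS.ins_eq]
    exact Pool.Agent.H352.DSH.taskTwoC ψ h.mem 0 h.c0 w
  refine Pool.Agent.TH19.DS.all_zero (m := m) (r := N - m) hS hT (by omega) ?_ u hum (by omega)
  intro l hl hs hm1
  rcases Nat.lt_or_ge m 2 with hm | hm
  · have hl1 : l.length = 1 := by omega
    obtain ⟨g, rfl⟩ := List.length_eq_one_iff.1 hl1
    have hg : g = (N - m) - 1 := by simp at hs; omega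
    subst hg
    refine one_zero (by omega) hS (hB _ ?_ ?_)
    · intro i hi
      rcases i with _ | _ | i
      · simp
      · simp
      · simp [List.take_replicate]
    · rw [wordX_count0]
      simp
      omega
  · obtain ⟨a, ha, hW⟩ := Pool.Agent.TH19.DS.exists_wordX (Pool.Agent.TH19.DS.W_end1 l)
    rw [hW]
    have h0 := Pool.Agent.TH19.DS.W_count0 l
    have h1 := Pool.Agent.TH19.DS.W_count1 l
    rw [hW, wordX_count0] at h0
    rw [hW, wordX_count] at h1
    refine (qsym_bal (N - m) m hm (fun l => co ψ (wordX l)) ?_).2 (fun a h1 h2 hb => hB a hb ?_) a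
      (by omega) (by omega)
    · intro β hβ c hc hpos hsum hex
      exact harmonic h hN hmin β (by omega) c hc hpos hsum hex
    · rw [wordX_count0]
      omega

/-- A ballot word: it ends with `x₁`, and no prefix has more letters `x₀` than letters `x₁`. -/
def Ballot (u : List (Fin 2)) : Prop :=
  u.getLast? = some 1 ∧ ∀ p, p <+: u → p.count 0 ≤ p.count 1

theorem bal_prefix (a : List ℕ) : ∀ k : ℕ, 0 < k → Bal k a → ∀ p, p <+: wordX a →
    p.count 0 < p.count 1 + k := by
  induction a with
  | nil =>
    intro k hk _ p hp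
    rw [wordX, List.prefix_nil] at hp
    subst hp
    simpa using hk
  | cons b l ih =>
    intro k hk hb p hp
    have hbk : b < k := by
      have := hb 0 (by simp)
      simpa using this
    have hl : Bal (k + 1 - b) l := by
      intro i hi
      have := hb (i + 1) (by simpa using hi)
      simp only [List.take_succ_cons, List.sum_cons] at this
      omega
    rw [wordX] at hp
    rcases List.prefix_or_prefix_of_prefix hp (List.prefix_append (List.replicate b (0 : Fin 2)) (1 :: wordX l)) with h | ⟨q, hq⟩
    · have h1 : p.count 0 ≤ (List.replicate b (0 : Fin 2)).count 0 := h.sublist.count_le 0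
      rw [List.count_replicate_self] at h1
      omega
    · subst hq
      have h := (List.prefix_append_right_inj _).1 hp
      rcases q with _ | ⟨c, q⟩
      · simp [List.count_replicate]
        omega
      · rw [List.cons_prefix_cons] at h
        obtain ⟨rfl, h⟩ := h
        have := ih (k + 1 - b) (by omega) hl q h
        simp [List.count_append, List.count_replicate]
        omega

theorem getLast_wordX {a : List ℕ} (ha : a ≠ []) : (wordX a).getLast? = some 1 := by
  induction a with
  | nil => exact absurd rfl ha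
  | cons b l ih =>
    rw [wordX, List.getLast?_append]
    rcases l with _ | ⟨c, l⟩
    · simp [wordX]
    · have := ih (by simp)
      rw [List.getLast?_cons, this]
      simp

theorem ballot_of_bal {a : List ℕ} (ha : a ≠ []) (h : Bal 1 a) : Ballot (wordX a) := by
  refine ⟨getLast_wordX ha, fun p hp => ?_⟩
  have := bal_prefix a 1 one_pos h p hp
  omega

theorem ballot_lt {u : List (Fin 2)} (h : Ballot u) : 2 * u.count 0 < u.length := by
  obtain ⟨h1, h2⟩ := h
  rcases List.eq_nil_or_concat u with rfl | ⟨v, c, rfl⟩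
  · simp at h1
  · have hc : c = 1 := by simpa using h1
    subst hc
    have h3 := h2 v (by simp)
    have h4 := Pool.Agent.TH19.DS.count_len v
    simp [List.count_append]
    omega

/-- the layer theorem in terms of words -/
theorem layer' {ψ : A} (h : IsDM ψ) {N M : ℕ} (hN : LenHom ψ N)
    (hB : ∀ u : List (Fin 2), u.length = N → Ballot u → u.count 0 < M → co ψ u = 0) :
    ∀ u, co ψ u ≠ 0 → M ≤ u.count 0 := by
  refine layer h hN fun a ha hM => ?_
  by_contra hne
  have hlen := hN _ hne
  have hsmall := taskSmall_proof taskTwoB Pool.Agent.H352.DSH.taskTwoC ψ h _ hne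
  refine hne (hB _ hlen (ballot_of_bal ?_ ha) hM)
  rintro rfl
  simp [wordX] at hsmall

end Pool.Agent.V11252.DMB
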